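import Pool.Agent.Helper84K9.SH.Stm
import Pool.Agent.Helper84K9.GP.Scale

/-!
# Three terms of a geometric progression with `M ∣ Phi` are equal

For `c 0 * c 2 = c 1 ^ 2` the second difference of `Phi` is twice the sum of the squares of the differences
of the exponents.
-/

set_option autoImplicit false

namespace Pool.Agent.Helper84K9.SH

open Finset

/-- the sum of the squares of the exponents is at most `l ^ 2` -/
lemma cor_sum_sq_le (l n : ℕ) (hn : n ≠ 0) (hN : n < 2 ^ l) :
    ∑ p : Fin (2 ^ l), (n.factorization p.val) ^ 2 ≤ l ^ 2 := by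
  calc ∑ p : Fin (2 ^ l), (n.factorization p.val) ^ 2
      ≤ ∑ p : Fin (2 ^ l), (n.factorization p.val * ∑ q : Fin (2 ^ l), n.factorization q.val) := by
        apply Finset.sum_le_sum
        intro p _
        rw [sq]
        apply Nat.mul_le_mul_left
        exact Finset.single_le_sum (f := fun q : Fin (2 ^ l) => n.factorization q.val)
          (fun _ _ => Nat.zero_le _) (mem_univ p)
    _ = (∑ p : Fin (2 ^ l), n.factorization p.val) *
          ∑ q : Fin (2 ^ l), n.factorization q.val := by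
        rw [← Finset.sum_mul]
    _ ≤ l ^ 2 := by
        rw [sq]
        exact Nat.mul_le_mul (Helper84K9.GP.sum_fact_le l n hn hN)
          (Helper84K9.GP.sum_fact_le l n hn hN)

theorem cor : S_COR := by
  intro l M hM ω c hc hgp
  obtain ⟨p0, l0, m0⟩ := hc 0 (by norm_num)
  obtain ⟨p1, l1, m1⟩ := hc 1 (by norm_num)
  obtain ⟨p2, l2, m2⟩ := hc 2 (by norm_num)
  have hv : ∀ p : ℕ, (c 0).factorization p + (c 2).factorization p =
      2 * (c 1).factorization p := by
    intro p
    have e : (c 0 * c 2).factorization p = (c 1 ^ 2).factorization p := by rw [hgp]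
    rw [Nat.factorization_mul p0.ne' p2.ne', Nat.factorization_pow] at e
    simpa only [Finsupp.coe_add, Pi.add_apply, Finsupp.coe_smul, Pi.smul_apply, smul_eq_mul] using e
  let d : Fin (2 ^ l) → ℤ := fun p => ((c 1).factorization p.val : ℤ) - (c 0).factorization p.val
  have hv2 : ∀ p : Fin (2 ^ l), ((c 2).factorization p.val : ℤ) =
      2 * (c 1).factorization p.val - (c 0).factorization p.val := by
    intro p
    have := hv p.val
    omega
  have key : (Phi ω (c 0) : ℤ) + (Phi ω (c 2) : ℤ) - 2 * (Phi ω (c 1) : ℤ) =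
      ∑ p, 2 * d p ^ 2 := by
    unfold Phi
    push_cast
    rw [Finset.mul_sum, ← Finset.sum_add_distrib, ← Finset.sum_sub_distrib]
    apply Finset.sum_congr rfl
    intro p _
    rw [hv2 p]
    simp only [d]
    ring
  have hdvd : (M : ℤ) ∣ ∑ p, 2 * d p ^ 2 := by
    rw [← key]
    exact dvd_sub (dvd_add (Int.natCast_dvd_natCast.2 m0) (Int.natCast_dvd_natCast.2 m2))
      (Dvd.dvd.mul_left (Int.natCast_dvd_natCast.2 m1) 2)
  have hle : ∑ p, 2 * d p ^ 2 ≤ 2 * (l : ℤ) ^ 2 := by
    have h0 := cor_sum_sq_le l (c 0) p0.ne' l0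
    have h2 := cor_sum_sq_le l (c 2) p2.ne' l2
    have h3 : ∑ p, 2 * d p ^ 2 ≤ ∑ p : Fin (2 ^ l), (((c 0).factorization p.val : ℤ) ^ 2 +
        ((c 2).factorization p.val : ℤ) ^ 2) := by
      apply Finset.sum_le_sum
      intro p _
      rw [hv2 p]
      simp only [d]
      nlinarith [sq_nonneg ((c 1).factorization p.val : ℤ)]
    rw [Finset.sum_add_distrib] at h3
    have h0' : ∑ p : Fin (2 ^ l), ((c 0).factorization p.val : ℤ) ^ 2 ≤ (l : ℤ) ^ 2 := by
      exact_mod_cast h0
    have h2' : ∑ p : Fin (2 ^ l), ((c 2).factorization p.val : ℤ) ^ 2 ≤ (l : ℤ) ^ 2 := by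
      exact_mod_cast h2
    linarith
  have hnn : ∀ p ∈ (univ : Finset (Fin (2 ^ l))), 0 ≤ 2 * d p ^ 2 := fun p _ => by positivity
  have hz0 : ∑ p, 2 * d p ^ 2 = 0 := by
    apply Int.eq_zero_of_dvd_of_nonneg_of_lt (Finset.sum_nonneg hnn) _ hdvd
    have : (2 * (l : ℤ) ^ 2) < M := by exact_mod_cast hM
    linarith
  have hz := (Finset.sum_eq_zero_iff_of_nonneg hnn).1 hz0
  apply Nat.eq_of_factorization_eq p0.ne' p1.ne'
  intro p
  by_cases hp : p < 2 ^ l
  · have h3 := hz ⟨p, hp⟩ (mem_univ _)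
    have h4 : d ⟨p, hp⟩ = 0 := by
      rcases mul_eq_zero.1 h3 with h | h
      · norm_num at h
      · exact pow_eq_zero_iff (by norm_num) |>.1 h
    simp only [d] at h4
    omega
  · rw [Nat.factorization_eq_zero_of_lt (by omega), Nat.factorization_eq_zero_of_lt (by omega)]

end Pool.Agent.Helper84K9.SH
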