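import Pool.Agent.Helper84K9.SH.Stm

/-!
# Leaf EXC
-/

set_option autoImplicit false

namespace Pool.Agent.Helper84K9.SH

open Finset

/-- two values `w u ^ 2 < w u' ^ 2` are far apart -/
theorem exc_aux {G x w u u' : ℕ} (hG : 1 ≤ G) (hx : (2 * G) ^ 8 ≤ x) (h1 : x ≤ w * u ^ 2)
    (h2 : w * u' ^ 2 < x + G) (h : u < u') : False := by
  have h3 : u + 1 ≤ u' := h
  have h4 : w * (u + 1) ^ 2 ≤ w * u' ^ 2 := Nat.mul_le_mul_left _ (Nat.pow_le_pow_left h3 2)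
  have h5 : 2 * (w * u) < G := by nlinarith
  have h6 : w * u ^ 2 ≤ (w * u) ^ 2 := by
    rcases Nat.eq_zero_or_pos w with rfl | hw
    · simp
    · nlinarith [Nat.zero_le ((w - 1) * w * u ^ 2), Nat.mul_le_mul hw (le_refl (w * u ^ 2))]
  have h7 : (w * u) ^ 2 < G ^ 2 := Nat.pow_lt_pow_left (by omega : w * u < G) (by norm_num)
  have h8 : G ^ 2 ≤ (2 * G) ^ 8 := by
    calc G ^ 2 ≤ (2 * G) ^ 2 := Nat.pow_le_pow_left (by omega) 2
      _ ≤ (2 * G) ^ 8 := Nat.pow_le_pow_right (by omega) (by norm_num)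
  omega

theorem exc : S_EXC := by
  intro W G x hG hx D hD
  classical
  have h : ∀ n ∈ D, ∃ w : ℕ, w < W ∧ ∃ u, n = w * u ^ 2 := by
    intro n hn
    obtain ⟨-, -, w, u, h1, h2⟩ := hD n hn
    exact ⟨w, h2, u, h1⟩
  choose! f hf using h
  have hc : D.card ≤ (Finset.range W).card := by
    refine Finset.card_le_card_of_injOn f (fun n hn => Finset.mem_coe.2 (Finset.mem_range.2 (hf n hn).1)) ?_
    intro n hn n' hn' e
    obtain ⟨u, hu⟩ := (hf n hn).2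
    obtain ⟨u', hu'⟩ := (hf n' hn').2
    obtain ⟨a1, a2, -⟩ := hD n hn
    obtain ⟨b1, b2, -⟩ := hD n' hn'
    rw [← e] at hu'
    rcases lt_trichotomy u u' with h | h | h
    · exact (exc_aux hG hx (hu ▸ a1) (hu' ▸ b2) h).elim
    · rw [hu, hu', h]
    · exact (exc_aux hG hx (hu' ▸ b1) (hu ▸ a2) h).elim
  simpa using hc

end Pool.Agent.Helper84K9.SH
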