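import Pool.Agent.Helper84K9.SH.Stm

/-! # FIN: the passage to real numbers (helper90) -/

set_option autoImplicit false

namespace Pool.Agent.Helper84K9.SH

namespace FinL

theorem gen (φ : ℝ → ℝ) (m K : ℝ) (hm : 0 < m) (h1 : ∀ x : ℝ, 2 ≤ x → m ≤ φ x)
    (h2 : ∀ (x : ℝ) (n : ℕ), 2 ≤ x → x ≤ n → (n : ℝ) ≤ x + 1 → φ n ≤ K * φ x)
    (A : Set ℕ) (C0 : ℝ) (N0 : ℕ) (hC0 : 0 < C0)
    (h : ∀ n : ℕ, N0 ≤ n → ∃ a ∈ A, n ≤ a ∧ (a : ℝ) ≤ n + C0 * φ n) :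
    ∃ C : ℝ, ∀ x : ℝ, 2 ≤ x → ∃ a ∈ A, x ≤ (a : ℝ) ∧ (a : ℝ) ≤ x + C * φ x := by
  obtain ⟨a0, ha0, hN0, -⟩ := h N0 le_rfl
  refine ⟨1 / m + C0 * max K 0 + a0 / m, fun x hx => ?_⟩
  have hφ := h1 x hx
  have hφ0 : 0 ≤ φ x := hm.le.trans hφ
  have e1 : 1 ≤ 1 / m * φ x := by
    rw [one_div, inv_mul_eq_div, le_div_iff₀ hm]
    linarith
  have hK0 : 0 ≤ C0 * max K 0 * φ x := by positivity
  have ha00 : (0 : ℝ) ≤ a0 := Nat.cast_nonneg _
  have e2 : (a0 : ℝ) ≤ a0 / m * φ x := by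
    have : (a0 : ℝ) / m * φ x = a0 * (1 / m * φ x) := by ring
    rw [this]
    exact le_mul_of_one_le_right ha00 e1
  have e3 : (1 / m + C0 * max K 0 + a0 / m) * φ x =
      1 / m * φ x + C0 * max K 0 * φ x + a0 / m * φ x := by ring
  rcases le_or_gt N0 ⌈x⌉₊ with hN | hN
  · obtain ⟨a, ha, h3, h4⟩ := h ⌈x⌉₊ hN
    have h5 : x ≤ (⌈x⌉₊ : ℝ) := Nat.le_ceil x
    have h6 : ((⌈x⌉₊ : ℕ) : ℝ) ≤ x + 1 := (Nat.ceil_lt_add_one (by linarith)).le
    have h7 := h2 x ⌈x⌉₊ hx h5 h6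
    have h8 : C0 * φ (⌈x⌉₊ : ℝ) ≤ C0 * max K 0 * φ x := by
      rw [mul_assoc]
      refine mul_le_mul_of_nonneg_left (h7.trans ?_) hC0.le
      exact mul_le_mul_of_nonneg_right (le_max_left _ _) hφ0
    have h9 : ((⌈x⌉₊ : ℕ) : ℝ) ≤ a := by exact_mod_cast h3
    refine ⟨a, ha, h5.trans h9, ?_⟩
    rw [e3]
    linarith
  · refine ⟨a0, ha0, ?_, ?_⟩
    · have h5 : x ≤ (⌈x⌉₊ : ℝ) := Nat.le_ceil x
      have h6 : ((⌈x⌉₊ : ℕ) : ℝ) ≤ a0 := by exact_mod_cast (hN.le.trans hN0)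
      exact h5.trans h6
    · rw [e3]
      linarith

end FinL

theorem fin3 : S_FIN3 := by
  intro c A C0 N0 hc hC0 h
  have hc0 : (0 : ℝ) ≤ 1 / (c : ℝ) := by positivity
  have hc1 : 1 / (c : ℝ) ≤ 1 := by
    rw [div_le_one (by positivity)]
    exact_mod_cast (show 1 ≤ c by omega)
  refine FinL.gen (fun x => Real.exp ((Real.log x) ^ (1 / (c : ℝ)))) 1 (Real.exp 1) one_pos ?_ ?_
    A C0 N0 hC0 h
  · intro x hx
    rw [← Real.exp_zero]
    apply Real.exp_le_exp.2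
    exact Real.rpow_nonneg (Real.log_nonneg (by linarith)) _
  · intro x n hx hxn hnx
    show Real.exp ((Real.log n) ^ (1 / (c : ℝ))) ≤ Real.exp 1 * Real.exp ((Real.log x) ^ (1 / (c : ℝ)))
    rw [← Real.exp_add]
    apply Real.exp_le_exp.2
    have hl0 : 0 ≤ Real.log x := Real.log_nonneg (by linarith)
    have h2 : Real.log n ≤ Real.log x + 1 := by
      have h3 : (n : ℝ) ≤ x * 2 := by linarith
      have h4 : Real.log n ≤ Real.log (x * 2) := Real.log_le_log (by linarith) h3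
      rw [Real.log_mul (by linarith) (by norm_num)] at h4
      have h5 : Real.log 2 ≤ 1 := by
        have := Real.log_two_lt_d9
        linarith
      linarith
    have h6 : (Real.log n) ^ (1 / (c : ℝ)) ≤ (Real.log x + 1) ^ (1 / (c : ℝ)) :=
      Real.rpow_le_rpow (Real.log_nonneg (by linarith)) h2 hc0
    have h7 : (Real.log x + 1) ^ (1 / (c : ℝ)) ≤ (Real.log x) ^ (1 / (c : ℝ)) + 1 ^ (1 / (c : ℝ)) :=
      Real.rpow_add_le_add_rpow hl0 zero_le_one hc0 hc1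
    rw [Real.one_rpow] at h7
    linarith

theorem fin4 : S_FIN4 := by
  intro A C0 N0 hC0 h
  have hl2 : 0 < Real.log 2 := Real.log_pos (by norm_num)
  refine FinL.gen (fun x => (Real.log x) ^ 5) ((Real.log 2) ^ 5) 32 (by positivity) ?_ ?_
    A C0 N0 hC0 h
  · intro x hx
    exact pow_le_pow_left₀ hl2.le (Real.log_le_log (by norm_num) hx) 5
  · intro x n hx hxn hnx
    show (Real.log n) ^ 5 ≤ 32 * (Real.log x) ^ 5
    have h3 : (n : ℝ) ≤ x ^ 2 := by nlinarith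
    have h4 : Real.log n ≤ 2 * Real.log x := by
      have h5 := Real.log_le_log (by linarith) h3
      rw [Real.log_pow] at h5
      exact_mod_cast h5
    have h5 : 0 ≤ Real.log n := Real.log_nonneg (by linarith)
    calc (Real.log n) ^ 5 ≤ (2 * Real.log x) ^ 5 := pow_le_pow_left₀ h5 h4 5
      _ = 32 * (Real.log x) ^ 5 := by ring

end Pool.Agent.Helper84K9.SH
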