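import Pool.Agent.Helper84K9.SH.Stm

/-! Leaf GP4 (helper61) -/

set_option autoImplicit false

namespace Pool.Agent.Helper84K9.SH

open Finset

theorem gp4 : S_GP4 := by
  intro lam i0 S hlam hS b hb hgp h01
  have hmon : Monotone lam := monotone_nat_of_le_succ fun i => by
    have := hlam i
    omega
  have hpos : ∀ j < 4, 0 < b j := fun j hj => (hb j hj).1
  obtain ⟨-, i, hi0, hi1, hi2, -⟩ := hb 1 (by omega)
  have hlast : Nat.log 2 (b 3) < lam (i + 3) := by
    rw [Nat.log_lt_iff_lt_pow (by norm_num) (hpos 3 (by omega)).ne']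
    have h1 : b 3 ≤ b 1 ^ 3 := Helper84K9.GP.gp_le 4 b hpos hgp (by omega) 2 (by omega)
    have h2 : b 1 < 2 ^ (Nat.log 2 (b 1) + 1) := Nat.lt_pow_succ_log_self (by norm_num) _
    calc b 3 ≤ b 1 ^ 3 := h1
      _ < (2 ^ (Nat.log 2 (b 1) + 1)) ^ 3 := Nat.pow_lt_pow_left h2 (by omega)
      _ = 2 ^ ((Nat.log 2 (b 1) + 1) * 3) := by rw [← pow_mul]
      _ ≤ 2 ^ (lam (i + 3)) := by
          apply Nat.pow_le_pow_right (by norm_num)
          have h3 : 3 * lam (i + 2) ≤ lam (i + 3) := hlam (i + 2)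
          omega
  have hmono := Helper84K9.GP.gp_mono_le 4 b hpos hgp h01
  have hlog : ∀ j, 1 ≤ j → j < 4 → Nat.log 2 (b j) < lam (i + 3) := by
    intro j hj1 hj2
    exact lt_of_le_of_lt (Nat.log_mono_right (hmono j 3 (by omega) (by omega))) hlast
  have hmem : ∀ j, 1 ≤ j → j < 4 → b j ∈ S (i + 1) := by
    intro j hj1 hj2
    obtain ⟨-, a, ha0, ha1, ha2, haS, haS'⟩ := hb j hj2
    have h3 : Nat.log 2 (b 1) ≤ Nat.log 2 (b j) := Nat.log_mono_right (hmono 1 j hj1 hj2)
    have h5 : i + 1 < a + 2 := by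
      by_contra h
      have := hmon (not_lt.1 h)
      omega
    have h6 : a + 1 < i + 3 := by
      by_contra h
      have h7 := hmon (not_lt.1 h)
      have h8 := hlog j hj1 hj2
      omega
    rcases (by omega : a = i ∨ a = i + 1) with rfl | rfl
    · exact haS'
    · exact haS
  have h := hS (i + 1) (by omega) (fun j => b (1 + j))
    (fun j hj => ⟨hpos (1 + j) (by omega), by
      show b (1 + j) < 2 ^ (lam (i + 1 + 2))
      rw [← Nat.log_lt_iff_lt_pow (by norm_num) (hpos (1 + j) (by omega)).ne']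
      exact hlog (1 + j) (by omega) (by omega), hmem (1 + j) (by omega) (by omega)⟩)
    (hgp 1 (by omega))
  have h2 := Helper84K9.GP.gp_mono 4 b hpos hgp h01 1 (by omega)
  have h3 : b 1 = b 2 := h
  have h4 : b 1 < b 2 := h2
  omega

end Pool.Agent.Helper84K9.SH
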