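import Pool.Agent.Helper84K9.SH.Stm

/-! Leaf NOH3: the number of the pairs of weights without a hit in an interval. -/

set_option autoImplicit false

namespace Pool.Agent.Helper84K9.SH

open Finset
open Helper84K9.GP (rough rough_card sum_fact_le)

namespace Noh3L

/-- complement of a product -/
lemma compl_card {κ κ' : Type} [Fintype κ] [Fintype κ'] (A : Set κ) (B : Set κ') (h h' : ℕ)
    (hA : h ≤ A.ncard) (hB : h' ≤ B.ncard) :
    {p : κ × κ' | ¬ (p.1 ∈ A ∧ p.2 ∈ B)}.ncard ≤ Fintype.card κ * Fintype.card κ' - h * h' := by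
  have h1 : {p : κ × κ' | ¬ (p.1 ∈ A ∧ p.2 ∈ B)} = (A ×ˢ B)ᶜ := by
    ext p
    simp [Set.mem_prod]
  rw [h1, Set.ncard_compl _ (Set.toFinite _), Set.ncard_prod, Nat.card_eq_fintype_card,
    Fintype.card_prod]
  exact Nat.sub_le_sub_left (Nat.mul_le_mul hA hB) _

lemma exists_t {M : ℕ} (hM : M.Prime) (A v : ℕ) (hv : 1 ≤ v) (hvM : v < M) :
    ∃ t : Fin M, M ∣ A + t.val * v := by
  have : Fact M.Prime := ⟨hM⟩
  have hv0 : (v : ZMod M) ≠ 0 := by
    rw [Ne, ZMod.natCast_eq_zero_iff]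
    exact Nat.not_dvd_of_pos_of_lt hv hvM
  refine ⟨⟨(-(A : ZMod M) / v).val, ZMod.val_lt _⟩, ?_⟩
  rw [← ZMod.natCast_eq_zero_iff]
  push_cast
  rw [ZMod.natCast_zmod_val]
  field_simp
  ring

lemma Phi_update {N R : ℕ} (ω : Fin N → Fin R) (c : Fin N) (t : Fin R) (n : ℕ) :
    Phi (Function.update ω c t) n =
      ((∑ p ∈ univ.erase c, ((n.factorization p.val) ^ 2 + (ω p).val * n.factorization p.val)) +
        (n.factorization c.val) ^ 2) + t.val * n.factorization c.val := by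
  unfold Phi
  rw [← Finset.sum_erase_add _ _ (mem_univ c), Function.update_self, add_assoc]
  congr 1
  apply Finset.sum_congr rfl
  intro p hp
  rw [Function.update_of_ne (Finset.ne_of_mem_erase hp)]

lemma Phi_update_zero {N R : ℕ} (ω : Fin N → Fin R) (c : Fin N) (t : Fin R) (n : ℕ)
    (h : n.factorization c.val = 0) : Phi (Function.update ω c t) n = Phi ω n := by
  unfold Phi
  apply Finset.sum_congr rfl
  intro p _
  by_cases hp : p = c
  · subst hp
    rw [h]
    simp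
  · rw [Function.update_of_ne hp]

lemma fact_le {l n : ℕ} (hn : n ≠ 0) (hN : n < 2 ^ l) (p : Fin (2 ^ l)) :
    n.factorization p.val ≤ l := by
  have h1 := sum_fact_le l n hn hN
  exact (Finset.single_le_sum (f := fun p : Fin (2 ^ l) => n.factorization p.val)
    (fun _ _ => Nat.zero_le _) (mem_univ p)).trans h1

end Noh3L

open Noh3L

/-- [NOH3] -/
theorem noh3 : SG.S_INT2 → S_NOH3 := by
  intro hI l l' M M' X G x hM hM' hlM hlM' hll hG20 hx1 hx2 hX
  classical
  have hl2 : (2 : ℕ) ^ l ≤ 2 ^ l' := Nat.pow_le_pow_right (by norm_num) hll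
  have hxpos : 0 < x := lt_of_lt_of_le (Nat.pow_pos (by omega)) hx1
  have hR : 1 ≤ M := hM.one_lt.le
  have hR' : 1 ≤ M' := hM'.one_lt.le
  set 𝒢 : Finset ℕ := (rough G x).filter (fun n => n ∉ X) with h𝒢
  have hmem : ∀ n ∈ 𝒢, (x ≤ n ∧ n < x + G ∧ ∃ p : ℕ, p < 2 ^ l ∧ p.Prime ∧ G < p ∧
      p ∣ n) ∧ n ∉ X := by
    intro n hn
    obtain ⟨hn0, hnX⟩ := mem_filter.1 hn
    unfold rough at hn0
    obtain ⟨hn1, p, hp, hpG, hpn⟩ := mem_filter.1 hn0
    obtain ⟨hn2, hn3⟩ := mem_Ico.1 hn1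
    have hpn' := Nat.le_of_dvd (by omega) hpn
    exact ⟨⟨hn2, hn3, p, by omega, hp, hpG, hpn⟩, hnX⟩
  obtain ⟨d, hd⟩ : ∃ d : ℕ → ℕ, ∀ n ∈ 𝒢, d n < 2 ^ l ∧ (d n).Prime ∧ G < d n ∧ d n ∣ n := by
    refine ⟨fun n => if h : n ∈ 𝒢 then (hmem n h).1.2.2.choose else 0, fun n hn => ?_⟩
    simp only [dif_pos hn]
    exact (hmem n hn).1.2.2.choose_spec
  obtain ⟨c, hc⟩ : ∃ c : ℕ → Fin (2 ^ l), ∀ n ∈ 𝒢, (c n).val = d n :=
    ⟨fun n => if h : d n < 2 ^ l then ⟨d n, h⟩ else ⟨0, by positivity⟩, fun n hn => by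
      simp only [dif_pos (hd n hn).1]⟩
  obtain ⟨c', hc'⟩ : ∃ c : ℕ → Fin (2 ^ l'), ∀ n ∈ 𝒢, (c n).val = d n :=
    ⟨fun n => if h : d n < 2 ^ l' then ⟨d n, h⟩ else ⟨0, by positivity⟩, fun n hn => by
      have h3 : d n < 2 ^ l' := lt_of_lt_of_le (hd n hn).1 hl2
      simp only [dif_pos h3]⟩
  have hpriv : ∀ a ∈ 𝒢, ∀ a' ∈ 𝒢, a ≠ a' → a'.factorization (d a) = 0 := by
    intro a ha a' ha' hne
    apply Nat.factorization_eq_zero_of_not_dvd
    intro hdv
    obtain ⟨-, -, hcG, hca⟩ := hd a ha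
    obtain ⟨⟨ha1, ha2, -⟩, -⟩ := hmem a ha
    obtain ⟨⟨ha1', ha2', -⟩, -⟩ := hmem a' ha'
    rcases Nat.lt_or_ge a a' with hlt | hge
    · have h4 := Nat.dvd_sub hdv hca
      have h5 := Nat.le_of_dvd (by omega) h4
      omega
    · have h4 := Nat.dvd_sub hca hdv
      have h5 := Nat.le_of_dvd (by omega) h4
      omega
  have hv : ∀ a ∈ 𝒢, 1 ≤ a.factorization (d a) := by
    intro a ha
    obtain ⟨-, hcp, -, hca⟩ := hd a ha
    obtain ⟨⟨ha1, -, -⟩, -⟩ := hmem a ha
    exact Nat.succ_le_iff.2 (hcp.factorization_pos_of_dvd (by omega) hca)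
  have hmain := hI (Fin (2 ^ l)) (Fin (2 ^ l')) (Fin M) (Fin M')
    (fun n ω ω' => ¬ (M ∣ Phi ω n ∧ M' ∣ Phi ω' n)) c c' 𝒢 (M * M' - 1) (by
      intro a ha a' ha' hne ω ω' t t'
      rw [Phi_update_zero ω (c a) t a' (by rw [hc a ha]; exact hpriv a ha a' ha' hne),
        Phi_update_zero ω' (c' a) t' a' (by rw [hc' a ha]; exact hpriv a ha a' ha' hne)]) (by
      intro a ha ω ω'
      obtain ⟨⟨ha1, ha2, -⟩, -⟩ := hmem a ha
      have hvl : a.factorization (d a) ≤ l := by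
        have := fact_le (l := l) (n := a) (by omega) (by omega) (c a)
        rwa [hc a ha] at this
      have e1 : 1 ≤ {t : Fin M | M ∣ Phi (Function.update ω (c a) t) a}.ncard := by
        obtain ⟨t, ht⟩ := exists_t hM ((∑ p ∈ univ.erase (c a), ((a.factorization p.val) ^ 2 +
          (ω p).val * a.factorization p.val)) + (a.factorization (c a).val) ^ 2)
          (a.factorization (c a).val) (by rw [hc a ha]; exact hv a ha)
          (by rw [hc a ha]; omega)
        rw [Nat.one_le_iff_ne_zero, Ne, Set.ncard_eq_zero (Set.toFinite _)]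
        apply Set.Nonempty.ne_empty
        refine ⟨t, ?_⟩
        change M ∣ Phi (Function.update ω (c a) t) a
        rw [Phi_update]
        exact ht
      have e2 : 1 ≤ {t : Fin M' | M' ∣ Phi (Function.update ω' (c' a) t) a}.ncard := by
        obtain ⟨t, ht⟩ := exists_t hM' ((∑ p ∈ univ.erase (c' a), ((a.factorization p.val) ^ 2 +
          (ω' p).val * a.factorization p.val)) + (a.factorization (c' a).val) ^ 2)
          (a.factorization (c' a).val) (by rw [hc' a ha]; exact hv a ha)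
          (by rw [hc' a ha]; omega)
        rw [Nat.one_le_iff_ne_zero, Ne, Set.ncard_eq_zero (Set.toFinite _)]
        apply Set.Nonempty.ne_empty
        refine ⟨t, ?_⟩
        change M' ∣ Phi (Function.update ω' (c' a) t) a
        rw [Phi_update]
        exact ht
      have h5 := compl_card _ _ 1 1 e1 e2
      rw [Fintype.card_fin, Fintype.card_fin, Nat.mul_one] at h5
      exact h5)
  rw [Fintype.card_fin, Fintype.card_fin] at hmain
  have hcount0 := rough_card G x hG20 hx1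
  have hcount : G ≤ 8 * 𝒢.card := by
    have h1 := hX ((rough G x).filter (fun n => ¬ n ∉ X)) (by
      intro n hn
      obtain ⟨hn0, hnX⟩ := mem_filter.1 hn
      unfold rough at hn0
      obtain ⟨hn1, -⟩ := mem_filter.1 hn0
      obtain ⟨hn2, hn3⟩ := mem_Ico.1 hn1
      exact ⟨hn2, hn3, not_not.1 hnX⟩)
    have h2 := Finset.card_filter_add_card_filter_not (s := rough G x) (fun n => n ∉ X)
    rw [← h𝒢] at h2
    omega
  have hsub : (NoHit3 l l' M M' X G x).ncard ≤
      {p : (Fin (2 ^ l) → Fin M) × (Fin (2 ^ l') → Fin M') |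
        ∀ a ∈ 𝒢, ¬ (M ∣ Phi p.1 a ∧ M' ∣ Phi p.2 a)}.ncard := by
    apply Set.ncard_le_ncard _ (Set.toFinite _)
    intro p hp n hn
    obtain ⟨⟨h7, h8, -⟩, h9⟩ := hmem n hn
    exact hp n h7 h8 h9
  set k := 𝒢.card with hk
  set Z := (NoHit3 l l' M M' X G x).ncard with hZ
  set N : ℕ := Fintype.card (Fin (2 ^ l) → Fin M) * Fintype.card (Fin (2 ^ l') → Fin M') with hN
  have hmain' : Z * (M * M') ^ k ≤ (M * M' - 1) ^ k * N :=
    (Nat.mul_le_mul_right _ hsub).trans hmain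
  have hM0 : (0 : ℝ) < M := by exact_mod_cast hR
  have hM0' : (0 : ℝ) < M' := by exact_mod_cast hR'
  have hRR : (0 : ℝ) < (M : ℝ) * M' := by positivity
  have hle : 1 ≤ M * M' := Nat.mul_pos hR hR'
  have hle' : (1 : ℝ) ≤ (M : ℝ) * M' := by exact_mod_cast hle
  set y : ℝ := 1 / ((M : ℝ) * M') with hy
  have hy0 : 0 ≤ y := by positivity
  have hy1 : y ≤ 1 := by
    rw [hy, div_le_one hRR]
    exact hle'
  have hreal : (Z : ℝ) ≤ (1 - y) ^ k * N := by
    have h11 : (Z : ℝ) * ((M : ℝ) * M') ^ k ≤ ((M : ℝ) * M' - 1) ^ k * N := by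
      have h12 : ((M * M' - 1 : ℕ) : ℝ) = (M : ℝ) * M' - 1 := by
        rw [Nat.cast_sub hle]
        push_cast
        ring
      rw [← h12]
      exact_mod_cast hmain'
    have h13 : ((M : ℝ) * M' - 1) ^ k = (1 - y) ^ k * ((M : ℝ) * M') ^ k := by
      rw [← mul_pow]
      congr 1
      rw [hy]
      field_simp
    rw [h13] at h11
    have h14 : (0 : ℝ) < ((M : ℝ) * M') ^ k := pow_pos hRR k
    rw [← mul_le_mul_iff_left₀ h14]
    linarith
  have hN' : ((Fintype.card (Fin (2 ^ l) → Fin M) : ℝ) * Fintype.card (Fin (2 ^ l') → Fin M')) =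
      (N : ℝ) := by
    rw [hN]
    push_cast
    ring
  rw [hN']
  refine hreal.trans (mul_le_mul_of_nonneg_right ?_ (Nat.cast_nonneg _))
  calc (1 - y) ^ k ≤ (Real.exp (-y)) ^ k := by
        apply pow_le_pow_left₀ (by linarith)
        have := Real.add_one_le_exp (-y)
        linarith
    _ = Real.exp (-((k : ℝ) * y)) := by
        rw [← Real.exp_nat_mul]
        congr 1
        ring
    _ ≤ Real.exp (-((G : ℝ) / (8 * M * M'))) := by
        apply Real.exp_le_exp.2
        apply neg_le_neg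
        have h15 : (G : ℝ) ≤ 8 * k := by exact_mod_cast hcount
        have h16 : (G : ℝ) / (8 * M * M') = (G : ℝ) / 8 * y := by
          rw [hy]
          field_simp
        rw [h16]
        apply mul_le_mul_of_nonneg_right _ hy0
        linarith

end Pool.Agent.Helper84K9.SH
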