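import Pool.Agent.Helper84K9.SH.Stm

/-! Leaf PAR: the parameters. -/

set_option autoImplicit false

namespace Pool.Agent.Helper84K9.SH

namespace ParL

theorem sq_le {y : ℕ} (hy : 4 ≤ y) : y ^ 2 ≤ 2 ^ y := by
  induction y, hy using Nat.le_induction with
  | base => norm_num
  | succ n hn ih =>
    rw [pow_succ 2 n]
    nlinarith

theorem lin {K y : ℕ} (hy : K + 5 ≤ y) : K * y + 5 ≤ 2 ^ y := by
  refine le_trans ?_ (sq_le (by omega))
  nlinarith

theorem ge (c i : ℕ) (hc : 2 ≤ c) : i ≤ c ^ i := by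
  have h1 : i < 2 ^ i := Nat.lt_two_pow_self
  exact h1.le.trans (Nat.pow_le_pow_left hc i)

end ParL

theorem par3 : S_PAR3 := by
  intro c hc
  refine ⟨3 * c ^ 2 + 2 * c ^ 3 + 5, fun i hi => ?_⟩
  have hy := hi.trans (ParL.ge c i hc)
  have e2 : c ^ (i + 2) = c ^ 2 * c ^ i := by rw [pow_add, mul_comm]
  have e3 : c ^ (i + 3) = c ^ 3 * c ^ i := by rw [pow_add, mul_comm]
  have e1 : c ^ (i + 1) = c * c ^ i := by rw [pow_succ, mul_comm]
  rw [e2, e3, e1]
  generalize c ^ i = y at *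
  have h1 := ParL.lin (K := 3 * c ^ 2 + 2 * c ^ 3) hy
  constructor
  · have e4 : 16 * 2 ^ (c ^ 2 * y) * (4 * (2 ^ (c ^ 2 * y)) ^ 2) * (4 * (2 ^ (c ^ 3 * y)) ^ 2) =
        2 ^ (8 + (c ^ 2 * y + c ^ 2 * y * 2 + c ^ 3 * y * 2)) := by
      rw [pow_add, pow_add, pow_add, pow_mul, pow_mul 2 (c ^ 3 * y)]
      ring
    rw [e4]
    apply Nat.pow_le_pow_right (by norm_num)
    nlinarith
  · rw [← pow_succ', ← pow_mul]
    apply Nat.pow_le_pow_right (by norm_num)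
    have h2 : 2 ^ (2 * y) ≤ 2 ^ (c * y) :=
      Nat.pow_le_pow_right (by norm_num) (Nat.mul_le_mul_right y hc)
    have h3 : 2 ^ (2 * y) = 2 ^ y * 2 ^ y := by rw [two_mul, pow_add]
    have h4 : 2 ^ 4 ≤ 2 ^ y := Nat.pow_le_pow_right (by norm_num) (by omega)
    nlinarith

theorem par4 : S_PAR4 := by
  refine ⟨3, fun i hi => ?_⟩
  have h1 : 15 * i + 45 ≤ 8 ^ i := by
    induction i, hi using Nat.le_induction with
    | base => norm_num
    | succ n hn ih =>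
      rw [pow_succ]
      omega
  have e1 : 2 * (256 * 8 ^ (5 * i + 12)) = 2 ^ (15 * i + 45) := by
    rw [show (8 : ℕ) = 2 ^ 3 by norm_num, ← pow_mul]
    rw [show 15 * i + 45 = 9 + 3 * (5 * i + 12) by ring, pow_add]
    ring
  rw [e1, ← pow_mul]
  apply Nat.pow_le_pow_right (by norm_num)
  rw [pow_succ]
  exact Nat.mul_le_mul_right 8 h1

end Pool.Agent.Helper84K9.SH
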