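import Pool.Agent.Helper84K9.SH.Stm

set_option autoImplicit false

namespace Pool.Agent.Helper84K9.SH

open Finset

theorem Gp3L.sq (a b c : ℕ) (ha : 0 < a) (h : a * b = c ^ 2) :
    ∃ w u : ℕ, b = w * u ^ 2 ∧ w ≤ a := by
  set g := Nat.gcd a b with hg
  have hg0 : 0 < g := Nat.gcd_pos_of_pos_left b ha
  obtain ⟨a', ha'⟩ := Nat.gcd_dvd_left a b
  obtain ⟨b', hb'⟩ := Nat.gcd_dvd_right a b
  rw [← hg] at ha' hb'
  have hdvd : g ^ 2 ∣ c ^ 2 := ⟨a' * b', by rw [← h]; nth_rewrite 1 [ha']; nth_rewrite 1 [hb']; ring⟩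
  obtain ⟨k, hk⟩ := (Nat.pow_dvd_pow_iff (by norm_num : (2 : ℕ) ≠ 0)).mp hdvd
  have h1 : b' * a' = k ^ 2 := by
    have e : g ^ 2 * (b' * a') = g ^ 2 * k ^ 2 := by
      calc g ^ 2 * (b' * a') = (g * a') * (g * b') := by ring
        _ = a * b := by rw [← ha', ← hb']
        _ = (g * k) ^ 2 := by rw [h, hk]
        _ = g ^ 2 * k ^ 2 := by ring
    exact Nat.eq_of_mul_eq_mul_left (by positivity) e
  have hcop : Nat.gcd b' a' = 1 := by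
    have h2 : g * Nat.gcd b' a' = g * 1 := by
      rw [← Nat.gcd_mul_left, ← hb', ← ha', mul_one, Nat.gcd_comm]
    exact Nat.eq_of_mul_eq_mul_left hg0 h2
  obtain ⟨d, hd⟩ := exists_eq_pow_of_mul_eq_pow (a := b') (b := a') (c := k) (k := 2)
    (by rw [show gcd b' a' = Nat.gcd b' a' from rfl, hcop]; exact isUnit_one) h1
  refine ⟨g, d, by rw [← hd]; exact hb', Nat.le_of_dvd ha (Nat.gcd_dvd_left a b)⟩

theorem gp3' : ∀ (lam : ℕ → ℕ) (i0 : ℕ) (S : ℕ → Set ℕ), (∀ i, 2 * lam i ≤ lam (i + 1)) →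
  (∀ i, i0 ≤ i → ∀ c : ℕ → ℕ, (∀ j < 3, 0 < c j ∧ c j < 2 ^ (lam (i + 2)) ∧ c j ∈ S i) →
    c 0 * c 2 = c 1 ^ 2 → c 0 = c 1) →
  ∀ c : ℕ → ℕ, (∀ j < 3, 0 < c j ∧ ∃ i, i0 ≤ i ∧ lam (i + 1) ≤ Nat.log 2 (c j) ∧
      Nat.log 2 (c j) < lam (i + 2) ∧ c j ∈ S i ∧ c j ∈ S (i + 1) ∧
      ¬ ∃ w u : ℕ, c j = w * u ^ 2 ∧ w < 2 ^ (lam i)) →
    c 0 * c 2 = c 1 ^ 2 → ¬ c 0 < c 1 := by
  intro lam i0 S hlam H c hc hprod hlt
  have hmono : Monotone lam := monotone_nat_of_le_succ (fun i => by have := hlam i; omega)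
  obtain ⟨p0, l0, q0, r0, s0, t0, v0, w0⟩ := hc 0 (by norm_num)
  obtain ⟨p1, l1, q1, r1, s1, t1, v1, w1⟩ := hc 1 (by norm_num)
  obtain ⟨p2, l2, q2, r2, s2, t2, v2, w2⟩ := hc 2 (by norm_num)
  have hlev : ∀ {a b x y : ℕ}, x ≤ y → lam (a + 1) ≤ Nat.log 2 x → Nat.log 2 y < lam (b + 2) →
      a ≤ b := by
    intro a b x y hxy h1 h2
    by_contra hcon
    have h3 : lam (b + 2) ≤ lam (a + 1) := hmono (by omega)
    have h4 := Nat.log_mono_right (b := 2) hxy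
    omega
  have h12 : c 1 < c 2 := by
    by_contra hcon
    have h1 : c 0 * c 2 < c 1 ^ 2 := by
      calc c 0 * c 2 ≤ c 0 * c 1 := Nat.mul_le_mul_left _ (by omega)
        _ < c 1 * c 1 := Nat.mul_lt_mul_of_pos_right hlt p1
        _ = c 1 ^ 2 := by ring
    omega
  have hc2 : c 2 ≤ c 1 ^ 2 := by
    rw [← hprod]
    exact Nat.le_mul_of_pos_left _ p0
  have e1 : l1 ≤ l2 := hlev h12.le r1 s2
  have e0 : l0 ≤ l2 := hlev (hlt.le.trans h12.le) r0 s2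
  have hpow : ∀ {x e : ℕ}, Nat.log 2 x < e → x < 2 ^ e := fun h => Nat.lt_pow_of_log_lt (by norm_num) h
  have e2 : l2 ≤ l1 + 1 := by
    have h1 : c 2 < 2 ^ (lam (l1 + 1 + 2)) := by
      calc c 2 ≤ c 1 ^ 2 := hc2
        _ < (2 ^ (lam (l1 + 2))) ^ 2 := Nat.pow_lt_pow_left (hpow s1) (by norm_num)
        _ = 2 ^ (2 * lam (l1 + 2)) := by rw [← pow_mul, mul_comm]
        _ ≤ 2 ^ (lam (l1 + 1 + 2)) := Nat.pow_le_pow_right (by norm_num) (hlam (l1 + 2))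
    have h2 : Nat.log 2 (c 2) < lam (l1 + 1 + 2) := Nat.log_lt_of_lt_pow p2.ne' h1
    exact hlev le_rfl r2 h2
  by_cases h0 : l2 ≤ l0 + 1
  · have hS : ∀ {x l : ℕ}, l ≤ l2 → l2 ≤ l + 1 → x ∈ S l → x ∈ S (l + 1) → x ∈ S l2 := by
      intro x l h1 h2 h3 h4
      rcases (show l2 = l ∨ l2 = l + 1 by omega) with h | h
      · rw [h]; exact h3
      · rw [h]; exact h4
    have := H l2 q2 c (by
      intro j hj
      rcases (show j = 0 ∨ j = 1 ∨ j = 2 by omega) with h | h | h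
      · subst h
        exact ⟨p0, (hlt.trans h12).trans (hpow s2), hS e0 h0 t0 v0⟩
      · subst h
        exact ⟨p1, h12.trans (hpow s2), hS e1 e2 t1 v1⟩
      · subst h
        exact ⟨p2, hpow s2, t2⟩) hprod
    omega
  · push Not at h0
    obtain ⟨w, u, h1, h2⟩ := Gp3L.sq (c 0) (c 2) (c 1) p0 hprod
    apply w2
    refine ⟨w, u, h1, ?_⟩
    calc w ≤ c 0 := h2
      _ < 2 ^ (lam (l0 + 2)) := hpow s0
      _ ≤ 2 ^ (lam l2) := Nat.pow_le_pow_right (by norm_num) (hmono (by omega))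

theorem gp3 : S_GP3 := gp3'

end Pool.Agent.Helper84K9.SH
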