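import Pool.Agent.Helper84K9.SH.Stm

/-! Leaf REAL3: the real form of the gap. -/

set_option autoImplicit false

namespace Pool.Agent.Helper84K9.SH

theorem real3 : S_REAL3 := by
  intro c hc j y hy h
  have hc0 : c ≠ 0 := by omega
  have hl0 : 0 < Real.log 2 := Real.log_pos (by norm_num)
  have hl1 : Real.log 2 ≤ 1 := by
    have := Real.log_le_sub_one_of_pos (show (0:ℝ) < 2 by norm_num)
    linarith
  obtain ⟨a, ha⟩ : ∃ a : ℝ, a = 2 ^ (c ^ j) := ⟨_, rfl⟩
  have ha1 : 1 ≤ a := by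
    rw [ha]
    exact one_le_pow₀ (by norm_num)
  have hac : a ^ c ≤ y + 1 := by
    rw [ha, ← pow_mul, ← pow_succ]
    exact h
  have h1 : (a - 1) ^ c ≤ y := by
    have h2 := pow_add_pow_le (show (0:ℝ) ≤ a - 1 by linarith) (show (0:ℝ) ≤ 1 by norm_num) hc0
    rw [one_pow, sub_add_cancel] at h2
    linarith
  have h3 : ((a - 1) * Real.log 2) ^ c ≤ Real.log 2 * y := by
    rw [mul_pow]
    have h4 : Real.log 2 ^ c ≤ Real.log 2 := pow_le_of_le_one hl0.le hl1 hc0
    calc (a - 1) ^ c * Real.log 2 ^ c ≤ y * Real.log 2 :=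
          mul_le_mul h1 h4 (by positivity) (by linarith)
      _ = Real.log 2 * y := mul_comm _ _
  have h5 : (a - 1) * Real.log 2 ≤ (Real.log 2 * y) ^ (1 / (c : ℝ)) := by
    have h6 : 0 ≤ (a - 1) * Real.log 2 := mul_nonneg (by linarith) hl0.le
    have h7 := Real.pow_rpow_inv_natCast h6 hc0
    rw [← h7, one_div]
    exact Real.rpow_le_rpow (by positivity) h3 (by positivity)
  have h8 : (2 : ℝ) ^ (2 ^ (c ^ j) + 3) = 16 * Real.exp ((a - 1) * Real.log 2) := by
    have h9 : (2 : ℝ) ^ (2 ^ (c ^ j)) = Real.exp (a * Real.log 2) := by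
      have h10 := Real.exp_nat_mul (Real.log 2) (2 ^ (c ^ j))
      rw [Real.exp_log (by norm_num)] at h10
      rw [← h10, ha]
      push_cast
      rfl
    rw [pow_add, h9]
    have h11 : a * Real.log 2 = (a - 1) * Real.log 2 + Real.log 2 := by ring
    rw [h11, Real.exp_add, Real.exp_log (by norm_num)]
    ring
  rw [h8]
  exact mul_le_mul_of_nonneg_left (Real.exp_le_exp.mpr h5) (by norm_num)

end Pool.Agent.Helper84K9.SH
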