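import Pool.Agent.Helper84K9.SH.Stm
import Pool.Agent.Helper84K9.SG.Asm

/-! Three and four term geometric progressions: assembly of the leaves. -/

set_option autoImplicit false

namespace Pool.Agent.Helper84K9.SH

open Finset
open Helper84K9.GP (rough)

theorem assembly (hcor : S_COR) (hnoh : S_NOH3) (hexc : S_EXC) (hseq : SG.S_SEQ)
    (lam M G W : ℕ → ℕ) (i0 : ℕ) (hlam : ∀ i, 2 * lam i ≤ lam (i + 1))
    (hl3 : ∀ i, 3 ≤ lam (i + 2))
    (hM : ∀ i, (M i).Prime ∧ 2 * (lam (i + 2)) ^ 2 < M i)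
    (hG : ∀ i, i0 ≤ i → 20 ≤ G i ∧ 8 * W i ≤ G i ∧ 16 * lam (i + 2) * M i * M (i + 1) ≤ G i ∧
      (2 * G i) ^ 8 ≤ 2 ^ (lam (i + 1))) :
    ∃ S : ℕ → Set ℕ,
      (∀ i, i0 ≤ i → ∀ c : ℕ → ℕ, (∀ j < 3, 0 < c j ∧ c j < 2 ^ (lam (i + 2)) ∧ c j ∈ S i) →
        c 0 * c 2 = c 1 ^ 2 → c 0 = c 1) ∧
      (∀ x i : ℕ, i0 ≤ i → lam (i + 1) ≤ Nat.log 2 x → Nat.log 2 x < lam (i + 2) →
        ∃ a : ℕ, x ≤ a ∧ 0 < a ∧
          (∃ i', i0 ≤ i' ∧ lam (i' + 1) ≤ Nat.log 2 a ∧ Nat.log 2 a < lam (i' + 2) ∧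
            a ∈ S i' ∧ a ∈ S (i' + 1) ∧ ¬ ∃ w u : ℕ, a = w * u ^ 2 ∧ w < W i') ∧
          (a < x + G i ∨ (2 ^ (lam (i + 2)) < x + G i ∧ a < x + G i + G (i + 1)))) := by
  classical
  let l : ℕ → ℕ := fun s => lam (i0 + s + 2)
  let R : ℕ → ℕ := fun s => M (i0 + s)
  have hRp : ∀ s, (R s).Prime := fun s => (hM (i0 + s)).1
  have hR1 : ∀ s, 1 ≤ R s := fun s => (hRp s).one_lt.le
  have hlM : ∀ s, l s < R s := by
    intro s
    have h1 := (hM (i0 + s)).2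
    have h2 := hl3 (i0 + s)
    simp only [l, R]
    nlinarith
  let Ω : ℕ → Type := fun s => Fin (2 ^ (l s)) → Fin (R s)
  have iNe : ∀ s, Nonempty (Ω s) := fun s => ⟨fun _ => ⟨0, by have := hR1 s; omega⟩⟩
  let I : ℕ → Finset ℕ := fun s => (range (2 ^ (l s))).filter (fun x =>
    (2 * G (i0 + s)) ^ 8 ≤ x ∧ x + G (i0 + s) ≤ 2 ^ (l s))
  let X : ℕ → Set ℕ := fun s => {n | ∃ w u : ℕ, n = w * u ^ 2 ∧ w < W (i0 + s)}
  let Bad : (s : ℕ) → Set (Ω s × Ω (s + 1)) := fun s => {p | ∃ x ∈ I s,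
    p ∈ NoHit3 (l s) (l (s + 1)) (R s) (R (s + 1)) (X s) (G (i0 + s)) x}
  have hbad : ∀ s, 8 * (Bad s).ncard ≤ Fintype.card (Fin (2 ^ l s) → Fin (R s)) *
      Fintype.card (Fin (2 ^ l (s + 1)) → Fin (R (s + 1))) := by
    intro s
    obtain ⟨hG20, hGW, hGM, hG8⟩ := hG (i0 + s) (by omega)
    have h1 : ((Bad s).ncard : ℝ) ≤ ∑ x ∈ I s,
        ((NoHit3 (l s) (l (s + 1)) (R s) (R (s + 1)) (X s) (G (i0 + s)) x).ncard : ℝ) := by
      exact_mod_cast SG.ncard_biUnion_le (I s) (fun x =>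
        NoHit3 (l s) (l (s + 1)) (R s) (R (s + 1)) (X s) (G (i0 + s)) x)
    have hlpos : 3 ≤ l s := hl3 _
    have hcard : (0 : ℝ) ≤ (Fintype.card (Fin (2 ^ l s) → Fin (R s)) : ℝ) *
        (Fintype.card (Fin (2 ^ l (s + 1)) → Fin (R (s + 1))) : ℝ) := by positivity
    have hll : l s ≤ l (s + 1) := by
      have := hlam (i0 + s + 2)
      simp only [l]
      have e : i0 + (s + 1) + 2 = i0 + s + 2 + 1 := by omega
      rw [e]
      omega
    have h2 : ∀ x ∈ I s,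
        ((NoHit3 (l s) (l (s + 1)) (R s) (R (s + 1)) (X s) (G (i0 + s)) x).ncard : ℝ) ≤
        Real.exp (-(2 * (l s : ℝ))) * (Fintype.card (Fin (2 ^ l s) → Fin (R s)) *
          Fintype.card (Fin (2 ^ l (s + 1)) → Fin (R (s + 1)))) := by
      intro x hx
      obtain ⟨-, hx1, hx2⟩ := mem_filter.1 hx
      refine (hnoh (l s) (l (s + 1)) (R s) (R (s + 1)) (X s) (G (i0 + s)) x (hRp s) (hRp (s + 1))
        (hlM s) (hlM (s + 1)) hll hG20 hx1 hx2 (fun D hD => ?_)).trans ?_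
      · have h3 := hexc (W (i0 + s)) (G (i0 + s)) x (by omega) hx1 D (fun n hn => hD n hn)
        omega
      apply mul_le_mul_of_nonneg_right _ hcard
      apply Real.exp_le_exp.2
      apply neg_le_neg
      have hRp0 : (0 : ℝ) < R s := by exact_mod_cast hR1 s
      have hRp1 : (0 : ℝ) < R (s + 1) := by exact_mod_cast hR1 (s + 1)
      rw [le_div_iff₀ (by positivity)]
      have h4 : (16 * l s * R s * R (s + 1) : ℕ) ≤ G (i0 + s) := hGM
      have h5 : ((16 * l s * R s * R (s + 1) : ℕ) : ℝ) ≤ (G (i0 + s) : ℝ) := by exact_mod_cast h4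
      push_cast at h5
      linarith
    have h3 : ((Bad s).ncard : ℝ) ≤ (2 : ℝ) ^ (l s) * (Real.exp (-(2 * (l s : ℝ))) *
        (Fintype.card (Fin (2 ^ l s) → Fin (R s)) *
          Fintype.card (Fin (2 ^ l (s + 1)) → Fin (R (s + 1))))) := by
      refine h1.trans ((Finset.sum_le_sum h2).trans ?_)
      rw [Finset.sum_const, nsmul_eq_mul]
      apply mul_le_mul_of_nonneg_right _ (by positivity)
      have := Finset.card_filter_le (range (2 ^ (l s))) (fun x =>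
        (2 * G (i0 + s)) ^ 8 ≤ x ∧ x + G (i0 + s) ≤ 2 ^ (l s))
      rw [card_range] at this
      exact_mod_cast this
    have h4 : (8 : ℝ) * ((Bad s).ncard : ℝ) ≤ (Fintype.card (Fin (2 ^ l s) → Fin (R s)) : ℝ) *
          (Fintype.card (Fin (2 ^ l (s + 1)) → Fin (R (s + 1))) : ℝ) := by
      calc (8 : ℝ) * ((Bad s).ncard : ℝ) ≤ 8 * ((2 : ℝ) ^ (l s) * (Real.exp (-(2 * (l s : ℝ))) *
            (Fintype.card (Fin (2 ^ l s) → Fin (R s)) *
              Fintype.card (Fin (2 ^ l (s + 1)) → Fin (R (s + 1)))))) :=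
            mul_le_mul_of_nonneg_left h3 (by norm_num)
        _ = (8 * ((2 : ℝ) ^ (l s) * Real.exp (-(2 * (l s : ℝ))))) *
            (Fintype.card (Fin (2 ^ l s) → Fin (R s)) *
              Fintype.card (Fin (2 ^ l (s + 1)) → Fin (R (s + 1)))) := by ring
        _ ≤ 1 * (Fintype.card (Fin (2 ^ l s) → Fin (R s)) *
              Fintype.card (Fin (2 ^ l (s + 1)) → Fin (R (s + 1)))) :=
            mul_le_mul_of_nonneg_right (SG.exp_small (l s) hlpos) hcard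
        _ = _ := one_mul _
    have h5 : 8 * (Bad s).ncard ≤ Fintype.card (Fin (2 ^ l s) → Fin (R s)) *
        Fintype.card (Fin (2 ^ l (s + 1)) → Fin (R (s + 1))) := by exact_mod_cast h4
    exact h5
  obtain ⟨w, hw⟩ := @hseq Ω (fun s => inferInstanceAs (Fintype (Fin (2 ^ (l s)) → Fin (R s)))) iNe Bad hbad
  let SS : ℕ → Set ℕ := fun i => {n | ∃ s, i = i0 + s ∧ R s ∣ Phi (w s) n}
  have hhit : ∀ s x : ℕ, (2 * G (i0 + s)) ^ 8 ≤ x → x + G (i0 + s) ≤ 2 ^ (lam (i0 + s + 2)) →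
      ∃ n, x ≤ n ∧ n < x + G (i0 + s) ∧ (¬ ∃ w u : ℕ, n = w * u ^ 2 ∧ w < W (i0 + s)) ∧
        n ∈ SS (i0 + s) ∧ n ∈ SS (i0 + s + 1) := by
    intro s x hx1 hx2
    obtain ⟨hG20, -, -, -⟩ := hG (i0 + s) (by omega)
    have hx3 : x ∈ I s := by
      rw [mem_filter, mem_range]
      refine ⟨?_, hx1, hx2⟩
      simp only [l]
      omega
    have h1 : ¬ (w s, w (s + 1)) ∈
        NoHit3 (l s) (l (s + 1)) (R s) (R (s + 1)) (X s) (G (i0 + s)) x := by
      intro h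
      exact hw s ⟨x, hx3, h⟩
    unfold NoHit3 at h1
    rw [Set.mem_setOf_eq] at h1
    push Not at h1
    obtain ⟨n, hn1, hn2, hn5, hn3, hn4⟩ := h1
    exact ⟨n, hn1, hn2, hn5, ⟨s, rfl, hn3⟩, ⟨s + 1, by omega, hn4⟩⟩
  refine ⟨SS, ?_, ?_⟩
  · intro i hi c hc hcgp
    obtain ⟨s, rfl⟩ := Nat.exists_eq_add_of_le hi
    refine hcor (l s) (R s) (hM (i0 + s)).2 (w s) c (fun j hj => ?_) hcgp
    obtain ⟨h1, h2, s', hs', h3⟩ := hc j hj
    have : s' = s := by omega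
    subst this
    exact ⟨h1, h2, h3⟩
  · intro x i hi h1 h2
    obtain ⟨s, rfl⟩ := Nat.exists_eq_add_of_le hi
    obtain ⟨hG20, -, -, hc1⟩ := hG (i0 + s) (by omega)
    obtain ⟨hG20', -, -, hc2⟩ := hG (i0 + s + 1) (by omega)
    have hlp := hl3 (i0 + s)
    have hx0 : x ≠ 0 := by
      rintro rfl
      simp only [Nat.log_zero_right] at h1
      have h3 : (2 * G (i0 + s)) ^ 8 ≤ 2 ^ 0 := by
        have : lam (i0 + s + 1) = 0 := by omega
        rwa [this] at hc1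
      have h4 : 2 * G (i0 + s) ≤ (2 * G (i0 + s)) ^ 8 := Nat.le_self_pow (by norm_num) _
      omega
    have hxlow : 2 ^ (lam (i0 + s + 1)) ≤ x := by
      calc 2 ^ (lam (i0 + s + 1)) ≤ 2 ^ (Nat.log 2 x) := Nat.pow_le_pow_right (by norm_num) h1
        _ ≤ x := Nat.pow_log_le_self 2 hx0
    by_cases hcase : x + G (i0 + s) ≤ 2 ^ (lam (i0 + s + 2))
    · obtain ⟨n, hn1, hn2, hn5, hn3, hn4⟩ := hhit s x (hc1.trans hxlow) hcase
      refine ⟨n, hn1, by omega, ⟨i0 + s, hi, ?_, ?_, hn3, hn4, hn5⟩, Or.inl hn2⟩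
      · exact h1.trans (Nat.log_mono_right hn1)
      · rw [Nat.log_lt_iff_lt_pow (by norm_num) (by omega)]
        omega
    · push Not at hcase
      have e12 : i0 + s + 1 + 1 = i0 + s + 2 := rfl
      rw [e12] at hc2
      have hgle : G (i0 + s + 1) ≤ 2 ^ (lam (i0 + s + 2)) := by
        calc G (i0 + s + 1) ≤ 2 * G (i0 + s + 1) := by omega
          _ = (2 * G (i0 + s + 1)) ^ 1 := (pow_one _).symm
          _ ≤ (2 * G (i0 + s + 1)) ^ 8 := Nat.pow_le_pow_right (by omega) (by norm_num)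
          _ ≤ _ := hc2
      have hup : 2 ^ (lam (i0 + s + 2)) + G (i0 + s + 1) ≤ 2 ^ (lam (i0 + s + 3)) := by
        calc 2 ^ (lam (i0 + s + 2)) + G (i0 + s + 1)
            ≤ 2 ^ (lam (i0 + s + 2)) + 2 ^ (lam (i0 + s + 2)) := by omega
          _ = 2 ^ (lam (i0 + s + 2) + 1) := by rw [pow_succ]; ring
          _ ≤ 2 ^ (lam (i0 + s + 3)) := by
              apply Nat.pow_le_pow_right (by norm_num)
              have e1 := hlam (i0 + s + 2)
              have e2 : i0 + s + 2 + 1 = i0 + s + 3 := rfl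
              rw [e2] at e1
              omega
      obtain ⟨n, hn1, hn2, hn5, hn3, hn4⟩ := hhit (s + 1) (2 ^ (lam (i0 + s + 2))) hc2 hup
      have hxlt : x < 2 ^ (lam (i0 + s + 2)) := by
        rwa [Nat.log_lt_iff_lt_pow (by norm_num) hx0] at h2
      have hn0 : n ≠ 0 := by
        have : 0 < 2 ^ (lam (i0 + s + 2)) := by positivity
        omega
      have hn2' : n < 2 ^ (lam (i0 + s + 2)) + G (i0 + s + 1) := hn2
      refine ⟨n, by omega, by omega, ⟨i0 + s + 1, by omega, ?_, ?_, hn3, hn4, hn5⟩,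
        Or.inr ⟨hcase, by omega⟩⟩
      · have : Nat.log 2 (2 ^ (lam (i0 + s + 2))) = lam (i0 + s + 2) := Nat.log_pow (by norm_num) _
        calc lam (i0 + s + 1 + 1) = Nat.log 2 (2 ^ (lam (i0 + s + 2))) := this.symm
          _ ≤ _ := Nat.log_mono_right hn1
      · rw [Nat.log_lt_iff_lt_pow (by norm_num) hn0]
        exact lt_of_lt_of_le hn2' hup

end Pool.Agent.Helper84K9.SH
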