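import Pool.Agent.Helper84K9.SH.Three

/-! Sets without four-term geometric progressions: the choice of the parameters. -/

set_option autoImplicit false

namespace Pool.Agent.Helper84K9.SH

theorem four_nat (hcor : S_COR) (hnoh : S_NOH3) (hexc : S_EXC) (hseq : SG.S_SEQ) (hgp : S_GP4)
    (hpar : S_PAR4) :
    ∃ (A : Set ℕ) (C0 : ℝ) (N0 : ℕ), 0 < C0 ∧ (∀ a ∈ A, 0 < a) ∧
      (∀ b : ℕ → ℕ, (∀ j < 4, b j ∈ A) → (∀ j, j + 2 < 4 → b j * b (j + 2) = b (j + 1) ^ 2) →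
        ¬ b 0 < b 1) ∧
      (∀ n : ℕ, N0 ≤ n → ∃ a ∈ A, n ≤ a ∧ (a : ℝ) ≤ n + C0 * (Real.log n) ^ 5) := by
  classical
  obtain ⟨i0, hP⟩ := hpar
  let lam : ℕ → ℕ := fun i => 8 ^ i
  have hlam1 : ∀ i, 1 ≤ lam i := fun i => Nat.one_le_pow _ _ (by norm_num)
  have hlam8 : ∀ i, lam (i + 1) = 8 * lam i := fun i => by
    simp only [lam]
    rw [pow_succ]
    ring
  have hl3 : ∀ i, 3 ≤ lam (i + 2) := by
    intro i
    have h1 := hlam8 (i + 1)
    have h2 := hlam1 (i + 1)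
    have e : i + 1 + 1 = i + 2 := rfl
    rw [e] at h1
    omega
  have hex : ∀ i, ∃ M : ℕ, M.Prime ∧ 2 * (lam (i + 2)) ^ 2 < M ∧ M ≤ 4 * (lam (i + 2)) ^ 2 := by
    intro i
    have h1 := hlam1 (i + 2)
    obtain ⟨p, hp, h2, h3⟩ := Nat.exists_prime_lt_and_le_two_mul (2 * (lam (i + 2)) ^ 2) (by positivity)
    exact ⟨p, hp, h2, by omega⟩
  choose M hMp hM1 hM2 using hex
  let G : ℕ → ℕ := fun i => 256 * 8 ^ (5 * i + 12)
  have hGpar : ∀ i, i0 ≤ i → 20 ≤ G i ∧ 8 * 0 ≤ G i ∧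
      16 * lam (i + 2) * M i * M (i + 1) ≤ G i ∧ (2 * G i) ^ 8 ≤ 2 ^ (lam (i + 1)) := by
    intro i hi
    refine ⟨?_, by omega, ?_, hP i hi⟩
    · have : 1 ≤ 8 ^ (5 * i + 12) := Nat.one_le_pow _ _ (by norm_num)
      simp only [G]
      omega
    · calc 16 * lam (i + 2) * M i * M (i + 1)
          ≤ 16 * lam (i + 2) * (4 * (lam (i + 2)) ^ 2) * (4 * (lam (i + 3)) ^ 2) :=
            Nat.mul_le_mul (Nat.mul_le_mul_left _ (hM2 i)) (hM2 (i + 1))
        _ = G i := by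
            simp only [lam, G]
            have e : (8 : ℕ) ^ (5 * i + 12) = (8 ^ (i + 2)) ^ 3 * (8 ^ (i + 3)) ^ 2 := by
              rw [← pow_mul, ← pow_mul, ← pow_add]
              congr 1
              ring
            rw [e]
            ring
  obtain ⟨S, hS1, hS2⟩ := assembly hcor hnoh hexc hseq lam M G (fun _ => 0) i0
    (fun i => by rw [hlam8]; omega) hl3 (fun i => ⟨hMp i, hM1 i⟩) hGpar
  have hlog2 : 0 < Real.log 2 := Real.log_pos (by norm_num)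
  refine ⟨{a | 0 < a ∧ ∃ i, i0 ≤ i ∧ lam (i + 1) ≤ Nat.log 2 a ∧ Nat.log 2 a < lam (i + 2) ∧
    a ∈ S i ∧ a ∈ S (i + 1)}, 512 * 8 ^ 12 / (Real.log 2) ^ 5, 2 ^ (lam (i0 + 1)), by positivity,
    fun a ha => ha.1, ?_, ?_⟩
  · intro b hb hbgp
    exact hgp lam i0 S (fun i => by rw [hlam8]; omega) hS1 b hb hbgp
  · intro n hn
    have hn0 : n ≠ 0 := by
      have : 0 < 2 ^ (lam (i0 + 1)) := by positivity
      omega
    have hlogn : lam (i0 + 1) ≤ Nat.log 2 n := by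
      have h1 : Nat.log 2 (2 ^ (lam (i0 + 1))) = lam (i0 + 1) := Nat.log_pow (by norm_num) _
      rw [← h1]
      exact Nat.log_mono_right hn
    obtain ⟨i, hi, h1, h2⟩ := exists_level lam (fun i => by
      have h3 := hlam8 i
      have h4 := hlam1 i
      omega) i0 _ hlogn
    obtain ⟨a, ha1, ha2, ⟨i', hi', h5, h6, h7, h8, -⟩, ha4⟩ := hS2 n i hi h1 h2
    refine ⟨a, ⟨ha2, i', hi', h5, h6, h7, h8⟩, ha1, ?_⟩
    have hyl : ((Nat.log 2 n : ℕ) : ℝ) ≤ Real.log n / Real.log 2 := by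
      have h7 := Real.natLog_le_logb n 2
      rw [Real.logb] at h7
      exact_mod_cast h7
    have hGG : G i ≤ G (i + 1) := by
      simp only [G]
      exact Nat.mul_le_mul_left _ (Nat.pow_le_pow_right (by norm_num) (by omega))
    have hle : a ≤ n + 2 * G (i + 1) := by
      rcases ha4 with h3 | ⟨-, h4⟩
      · omega
      · omega
    have hreal : (a : ℝ) ≤ n + 2 * ((G (i + 1) : ℕ) : ℝ) := by exact_mod_cast hle
    have hG5 : 2 * ((G (i + 1) : ℕ) : ℝ) ≤ 512 * 8 ^ 12 * (Real.log n / Real.log 2) ^ 5 := by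
      have h3 : ((lam (i + 1) : ℕ) : ℝ) ≤ Real.log n / Real.log 2 := by
        refine le_trans ?_ hyl
        exact_mod_cast h1
      have h4 : ((lam (i + 1) : ℕ) : ℝ) ^ 5 ≤ (Real.log n / Real.log 2) ^ 5 :=
        pow_le_pow_left₀ (by positivity) h3 5
      have h9 : 2 * ((G (i + 1) : ℕ) : ℝ) = 512 * 8 ^ 12 * ((lam (i + 1) : ℕ) : ℝ) ^ 5 := by
        simp only [G, lam]
        push_cast
        have e : 5 * (i + 1) + 12 = 12 + (i + 1) * 5 := by ring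
        rw [e, pow_add, pow_mul]
        ring
      rw [h9]
      exact mul_le_mul_of_nonneg_left h4 (by positivity)
    calc (a : ℝ) ≤ n + 2 * ((G (i + 1) : ℕ) : ℝ) := hreal
      _ ≤ n + 512 * 8 ^ 12 * (Real.log n / Real.log 2) ^ 5 := by linarith
      _ = n + 512 * 8 ^ 12 / (Real.log 2) ^ 5 * (Real.log n) ^ 5 := by
          rw [div_pow]
          ring

end Pool.Agent.Helper84K9.SH
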