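import Pool.Agent.Helper84K9.SG.Stm

/-!
# Three and four term geometric progressions: the statements of the leaves

`Phi w n = ∑ p, (v_p(n) ^ 2 + w p * v_p(n))`. If `c 0 * c 2 = c 1 ^ 2` the exponents of every prime form an
arithmetic progression, so `Phi (c 0) + Phi (c 2) - 2 Phi (c 1) = 2 ∑ d_p ^ 2`, which is between `1` and
`2 l ^ 2` if `c 0 ≠ c 1` and `c j < 2 ^ l`: the three values are not all divisible by a prime `M > 2 l ^ 2`.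
-/

set_option autoImplicit false

namespace Pool.Agent.Helper84K9.SH

open Finset
open Helper84K9.GP (rough)

/-- the sum of the squares of the exponents with a linear twist -/
def Phi {N R : ℕ} (ω : Fin N → Fin R) (n : ℕ) : ℕ :=
  ∑ p : Fin N, ((n.factorization p.val) ^ 2 + (ω p).val * n.factorization p.val)

/-- COR. `v_p(c 0) + v_p(c 2) = 2 v_p(c 1)`. In `ℤ`: `Phi (c 0) + Phi (c 2) - 2 Phi (c 1) = ∑ 2 d_p ^ 2` with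
`d_p = v_p(c 1) - v_p(c 0)`; it is `≤ ∑ v_p(c 0) ^ 2 + ∑ v_p(c 2) ^ 2 ≤ 2 l ^ 2 < M`
(`GP.sum_fact_le`, see `GP.F_le`), divisible by `M`, so zero, so `c 0 = c 1` (as in `GP.quad_F`). -/
def S_COR : Prop := ∀ (l M : ℕ), 2 * l ^ 2 < M → ∀ (ω : Fin (2 ^ l) → Fin M) (c : ℕ → ℕ),
  (∀ j < 3, 0 < c j ∧ c j < 2 ^ l ∧ M ∣ Phi ω (c j)) → c 0 * c 2 = c 1 ^ 2 → c 0 = c 1

/-- the pairs of weights without an element of `[x, x + G)` outside of `X` satisfying both conditions -/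
def NoHit3 (l l' M M' : ℕ) (X : Set ℕ) (G x : ℕ) : Set ((Fin (2 ^ l) → Fin M) × (Fin (2 ^ l') → Fin M')) :=
  {p | ∀ n : ℕ, x ≤ n → n < x + G → n ∉ X → ¬ (M ∣ Phi p.1 n ∧ M' ∣ Phi p.2 n)}

/-- NOH3. The proof of `SG.noh` (SG/Noh.lean) with `𝒢 = rough G x` minus `X`, which has at least `G / 8`
elements, and `Phi` in the place of `F`: `Phi (update ω c t) n = (the sum over the other p) + v ^ 2 + t v`,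
`v = n.factorization c` with `1 ≤ v ≤ l < M` (`GP.sum_fact_le`), so for exactly one (at least one is enough)
`t` in `Fin M` it is divisible by the prime `M`: `h = h' = 1`, `r = M M' - 1`. -/
def S_NOH3 : Prop := ∀ (l l' M M' : ℕ) (X : Set ℕ) (G x : ℕ), M.Prime → M'.Prime → l < M → l' < M' →
  l ≤ l' → 20 ≤ G → (2 * G) ^ 8 ≤ x → x + G ≤ 2 ^ l →
  (∀ D : Finset ℕ, (∀ n ∈ D, x ≤ n ∧ n < x + G ∧ n ∈ X) → 8 * D.card ≤ G) →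
  ((NoHit3 l l' M M' X G x).ncard : ℝ) ≤ Real.exp (-((G : ℝ) / (8 * M * M'))) *
    (Fintype.card (Fin (2 ^ l) → Fin M) * Fintype.card (Fin (2 ^ l') → Fin M'))

/-- EXC. The map `n ↦ w` is injective: if `w u ^ 2 < w u' ^ 2` are in `[x, x + G)`, then
`G > w (u' ^ 2 - u ^ 2) ≥ 2 w u` and `(w u) ^ 2 ≥ w u ^ 2 ≥ x ≥ (2 G) ^ 8`. -/
def S_EXC : Prop := ∀ (W G x : ℕ), 1 ≤ G → (2 * G) ^ 8 ≤ x → ∀ D : Finset ℕ,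
  (∀ n ∈ D, x ≤ n ∧ n < x + G ∧ ∃ w u : ℕ, n = w * u ^ 2 ∧ w < W) → D.card ≤ W

/-- GP3. The level of `c j` is the `i` with `lam (i + 1) ≤ log₂ (c j) < lam (i + 2)`. As `c 2 ≤ c 1 ^ 2`, with
`m` the level of `c 2`, the level of `c 1` is `m - 1` or `m`. If the level of `c 0` is `≥ m - 1`, all three are
in `S m`: apply the hypothesis. If not, `c 0 < 2 ^ (lam m)`; let `c 1 / c 0 = u / v` in lowest terms; then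
`c 2 v ^ 2 = c 0 u ^ 2`, so `c 0 = w v ^ 2`, `c 2 = w u ^ 2`, `w ≤ c 0 < 2 ^ (lam m)`, which is excluded. -/
def S_GP3 : Prop := ∀ (lam : ℕ → ℕ) (i0 : ℕ) (S : ℕ → Set ℕ), (∀ i, 2 * lam i ≤ lam (i + 1)) →
  (∀ i, i0 ≤ i → ∀ c : ℕ → ℕ, (∀ j < 3, 0 < c j ∧ c j < 2 ^ (lam (i + 2)) ∧ c j ∈ S i) →
    c 0 * c 2 = c 1 ^ 2 → c 0 = c 1) →
  ∀ c : ℕ → ℕ, (∀ j < 3, 0 < c j ∧ ∃ i, i0 ≤ i ∧ lam (i + 1) ≤ Nat.log 2 (c j) ∧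
      Nat.log 2 (c j) < lam (i + 2) ∧ c j ∈ S i ∧ c j ∈ S (i + 1) ∧
      ¬ ∃ w u : ℕ, c j = w * u ^ 2 ∧ w < 2 ^ (lam i)) →
    c 0 * c 2 = c 1 ^ 2 → ¬ c 0 < c 1

/-- GP4. As GP6 (SG/Gp6.lean): `b 3 ≤ (b 1) ^ 3`, so the levels of `b 1, b 2, b 3` are `i` or `i + 1`, and all
three are in `S (i + 1)`: apply the hypothesis to `fun j => b (1 + j)`. -/
def S_GP4 : Prop := ∀ (lam : ℕ → ℕ) (i0 : ℕ) (S : ℕ → Set ℕ), (∀ i, 3 * lam i ≤ lam (i + 1)) →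
  (∀ i, i0 ≤ i → ∀ c : ℕ → ℕ, (∀ j < 3, 0 < c j ∧ c j < 2 ^ (lam (i + 2)) ∧ c j ∈ S i) →
    c 0 * c 2 = c 1 ^ 2 → c 0 = c 1) →
  ∀ b : ℕ → ℕ, (∀ j < 4, 0 < b j ∧ ∃ i, i0 ≤ i ∧ lam (i + 1) ≤ Nat.log 2 (b j) ∧
      Nat.log 2 (b j) < lam (i + 2) ∧ b j ∈ S i ∧ b j ∈ S (i + 1)) →
    (∀ j, j + 2 < 4 → b j * b (j + 2) = b (j + 1) ^ 2) → ¬ b 0 < b 1

/-- PAR3. With `y = c ^ i`: exponents of 2. -/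
def S_PAR3 : Prop := ∀ c : ℕ, 2 ≤ c → ∃ i0 : ℕ, ∀ i, i0 ≤ i →
  16 * 2 ^ (c ^ (i + 2)) * (4 * (2 ^ (c ^ (i + 2))) ^ 2) * (4 * (2 ^ (c ^ (i + 3))) ^ 2) ≤
    2 ^ (2 ^ (c ^ i) + 3) ∧
  (2 * 2 ^ (2 ^ (c ^ i) + 3)) ^ 8 ≤ 2 ^ (2 ^ (c ^ (i + 1)))

/-- REAL3. `2 ^ (c ^ j) = (2 ^ (c ^ (j + 1))) ^ (1 / c) ≤ (y + 1) ^ (1 / c) ≤ y ^ (1 / c) + 1`, and
`log 2 * y ^ (1 / c) ≤ (log 2 * y) ^ (1 / c)`; `C = 16`. -/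
def S_REAL3 : Prop := ∀ c : ℕ, 2 ≤ c → ∀ (j : ℕ) (y : ℝ), 1 ≤ y → (2 : ℝ) ^ (c ^ (j + 1)) ≤ y + 1 →
  (2 : ℝ) ^ (2 ^ (c ^ j) + 3) ≤ 16 * Real.exp ((Real.log 2 * y) ^ (1 / (c : ℝ)))

/-- PAR4. -/
def S_PAR4 : Prop := ∃ i0 : ℕ, ∀ i, i0 ≤ i → (2 * (256 * 8 ^ (5 * i + 12))) ^ 8 ≤ 2 ^ (8 ^ (i + 1))

/-- FIN3, the passage to real `x`: from natural `n` with `y = log₂ n`; `n = ⌈x⌉`,
`(log n) ^ (1 / c) ≤ (log x) ^ (1 / c) + 1`; for small `x` take a fixed large element `a0 ∈ A`. -/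
def S_FIN3 : Prop := ∀ (c : ℕ) (A : Set ℕ) (C0 : ℝ) (N0 : ℕ), 2 ≤ c → 0 < C0 →
  (∀ n : ℕ, N0 ≤ n → ∃ a ∈ A, n ≤ a ∧ (a : ℝ) ≤ n + C0 * Real.exp ((Real.log n) ^ (1 / (c : ℝ)))) →
  ∃ C : ℝ, ∀ x : ℝ, 2 ≤ x → ∃ a ∈ A, x ≤ (a : ℝ) ∧
    (a : ℝ) ≤ x + C * Real.exp ((Real.log x) ^ (1 / (c : ℝ)))

/-- FIN4, the same with the fifth power of the logarithm. -/
def S_FIN4 : Prop := ∀ (A : Set ℕ) (C0 : ℝ) (N0 : ℕ), 0 < C0 →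
  (∀ n : ℕ, N0 ≤ n → ∃ a ∈ A, n ≤ a ∧ (a : ℝ) ≤ n + C0 * (Real.log n) ^ 5) →
  ∃ C : ℝ, ∀ x : ℝ, 2 ≤ x → ∃ a ∈ A, x ≤ (a : ℝ) ∧ (a : ℝ) ≤ x + C * (Real.log x) ^ 5

end Pool.Agent.Helper84K9.SH
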