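import Pool.Agent.Helper84K9.SH.Asm

/-! Sets without three-term geometric progressions: the choice of the parameters. -/

set_option autoImplicit false

namespace Pool.Agent.Helper84K9.SH

lemma exists_level (lam : ℕ → ℕ) (hmono : ∀ i, lam i < lam (i + 1)) (i0 y : ℕ)
    (h : lam (i0 + 1) ≤ y) : ∃ i, i0 ≤ i ∧ lam (i + 1) ≤ y ∧ y < lam (i + 2) := by
  classical
  have hid : ∀ i, i ≤ lam i := by
    intro i
    induction i with
    | zero => exact Nat.zero_le _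
    | succ i ih => have := hmono i; omega
  have hex : ∃ j, y < lam (i0 + j + 2) := ⟨y, by have := hid (i0 + y + 2); omega⟩
  have h1 := Nat.find_spec hex
  by_cases h0 : Nat.find hex = 0
  · rw [h0] at h1
    exact ⟨i0, le_rfl, h, h1⟩
  · have h2 := Nat.find_min hex (m := Nat.find hex - 1) (by omega)
    push Not at h2
    refine ⟨i0 + Nat.find hex, by omega, ?_, h1⟩
    have e : i0 + (Nat.find hex - 1) + 2 = i0 + Nat.find hex + 1 := by omega
    rwa [e] at h2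

theorem three_nat (hcor : S_COR) (hnoh : S_NOH3) (hexc : S_EXC) (hseq : SG.S_SEQ) (hgp : S_GP3)
    (hpar : S_PAR3) (hreal : S_REAL3) (c : ℕ) (hc : 2 ≤ c) :
    ∃ (A : Set ℕ) (N0 : ℕ), (∀ a ∈ A, 0 < a) ∧
      (∀ b : ℕ → ℕ, (∀ j < 3, b j ∈ A) → b 0 * b 2 = b 1 ^ 2 → ¬ b 0 < b 1) ∧
      (∀ n : ℕ, N0 ≤ n → ∃ a ∈ A, n ≤ a ∧
        (a : ℝ) ≤ n + 32 * Real.exp ((Real.log n) ^ (1 / (c : ℝ)))) := by
  classical
  obtain ⟨i0, hP⟩ := hpar c hc
  let lam : ℕ → ℕ := fun i => 2 ^ (c ^ i)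
  have hci : ∀ i, 1 ≤ c ^ i := fun i => Nat.one_le_pow _ _ (by omega)
  have hlam : ∀ i, 2 * lam i ≤ lam (i + 1) := by
    intro i
    simp only [lam]
    calc 2 * 2 ^ (c ^ i) = 2 ^ (c ^ i + 1) := by rw [pow_succ]; ring
      _ ≤ 2 ^ (c ^ (i + 1)) := by
          apply Nat.pow_le_pow_right (by norm_num)
          have h1 := hci i
          rw [pow_succ]
          nlinarith
  have hlam1 : ∀ i, 1 ≤ lam i := fun i => Nat.one_le_pow _ _ (by norm_num)
  have hl3 : ∀ i, 3 ≤ lam (i + 2) := by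
    intro i
    have h1 := hlam i
    have h2 := hlam (i + 1)
    have h3 := hlam1 i
    have e : i + 1 + 1 = i + 2 := rfl
    rw [e] at h2
    omega
  have hex : ∀ i, ∃ M : ℕ, M.Prime ∧ 2 * (lam (i + 2)) ^ 2 < M ∧ M ≤ 4 * (lam (i + 2)) ^ 2 := by
    intro i
    have h1 := hlam1 (i + 2)
    obtain ⟨p, hp, h2, h3⟩ := Nat.exists_prime_lt_and_le_two_mul (2 * (lam (i + 2)) ^ 2) (by positivity)
    exact ⟨p, hp, h2, by omega⟩
  choose M hMp hM1 hM2 using hex
  let G : ℕ → ℕ := fun i => 2 ^ (lam i + 3)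
  have hGpar : ∀ i, i0 ≤ i → 20 ≤ G i ∧ 8 * (2 ^ (lam i)) ≤ G i ∧
      16 * lam (i + 2) * M i * M (i + 1) ≤ G i ∧ (2 * G i) ^ 8 ≤ 2 ^ (lam (i + 1)) := by
    intro i hi
    obtain ⟨h1, h2⟩ := hP i hi
    refine ⟨?_, ?_, ?_, h2⟩
    · simp only [G]
      calc 20 ≤ 2 ^ 5 := by norm_num
        _ ≤ 2 ^ (lam i + 3) := by
            apply Nat.pow_le_pow_right (by norm_num)
            have h3 : 2 ^ 1 ≤ 2 ^ (c ^ i) := Nat.pow_le_pow_right (by norm_num) (hci i)
            simp only [lam]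
            omega
    · simp only [G]
      rw [pow_add]
      omega
    · calc 16 * lam (i + 2) * M i * M (i + 1)
          ≤ 16 * lam (i + 2) * (4 * (lam (i + 2)) ^ 2) * (4 * (lam (i + 3)) ^ 2) :=
            Nat.mul_le_mul (Nat.mul_le_mul_left _ (hM2 i)) (hM2 (i + 1))
        _ ≤ G i := h1
  obtain ⟨S, hS1, hS2⟩ := assembly hcor hnoh hexc hseq lam M G (fun i => 2 ^ (lam i)) i0 hlam hl3
    (fun i => ⟨hMp i, hM1 i⟩) hGpar
  have hlog2 : 0 < Real.log 2 := Real.log_pos (by norm_num)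
  refine ⟨{a | 0 < a ∧ ∃ i, i0 ≤ i ∧ lam (i + 1) ≤ Nat.log 2 a ∧ Nat.log 2 a < lam (i + 2) ∧
    a ∈ S i ∧ a ∈ S (i + 1) ∧ ¬ ∃ w u : ℕ, a = w * u ^ 2 ∧ w < 2 ^ (lam i)},
    2 ^ (lam (i0 + 1)), fun a ha => ha.1, ?_, ?_⟩
  · intro b hb hbgp
    exact hgp lam i0 S hlam hS1 b hb hbgp
  · intro n hn
    have hn0 : n ≠ 0 := by
      have : 0 < 2 ^ (lam (i0 + 1)) := by positivity
      omega
    have hlogn : lam (i0 + 1) ≤ Nat.log 2 n := by
      have h1 : Nat.log 2 (2 ^ (lam (i0 + 1))) = lam (i0 + 1) := Nat.log_pow (by norm_num) _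
      rw [← h1]
      exact Nat.log_mono_right hn
    obtain ⟨i, hi, h1, h2⟩ := exists_level lam (fun i => by
      have h3 := hlam i
      have h4 := hlam1 i
      omega) i0 _ hlogn
    obtain ⟨a, ha1, ha2, ha3, ha4⟩ := hS2 n i hi h1 h2
    refine ⟨a, ⟨ha2, ha3⟩, ha1, ?_⟩
    have hnpos : (0 : ℝ) < n := by exact_mod_cast Nat.pos_of_ne_zero hn0
    obtain ⟨y, hy⟩ : ∃ y, y = Real.log n / Real.log 2 := ⟨_, rfl⟩
    have hlogy : Real.log 2 * y = Real.log n := by rw [hy]; field_simp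
    have hyl : ((Nat.log 2 n : ℕ) : ℝ) ≤ y := by
      have h7 := Real.natLog_le_logb n 2
      rw [Real.logb] at h7
      rw [hy]
      exact_mod_cast h7
    have hy1 : 1 ≤ y := by
      have h3 := hlam1 (i + 1)
      have h4 : (1 : ℝ) ≤ ((Nat.log 2 n : ℕ) : ℝ) := by exact_mod_cast (by omega : 1 ≤ Nat.log 2 n)
      linarith
    have hlow : (2 : ℝ) ^ (c ^ (i + 1)) ≤ y + 1 := by
      have h3 : ((lam (i + 1) : ℕ) : ℝ) ≤ ((Nat.log 2 n : ℕ) : ℝ) := by exact_mod_cast h1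
      simp only [lam] at h3
      push_cast at h3
      linarith
    have hG1 : ((G i : ℕ) : ℝ) ≤ 16 * Real.exp ((Real.log n) ^ (1 / (c : ℝ))) := by
      have h3 := hreal c hc i y hy1 hlow
      rw [hlogy] at h3
      simp only [G, lam]
      push_cast
      exact h3
    rcases ha4 with h3 | ⟨h3, h4⟩
    · have h5 : (a : ℝ) ≤ n + (G i : ℕ) := by exact_mod_cast h3.le
      have h6 := Real.exp_pos ((Real.log n) ^ (1 / (c : ℝ)))
      linarith
    · have hGn : G i ≤ n := by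
        obtain ⟨h20, -, -, h8⟩ := hGpar i hi
        calc G i ≤ 2 * G i := by omega
          _ = (2 * G i) ^ 1 := (pow_one _).symm
          _ ≤ (2 * G i) ^ 8 := Nat.pow_le_pow_right (by omega) (by norm_num)
          _ ≤ 2 ^ (lam (i + 1)) := h8
          _ ≤ 2 ^ (Nat.log 2 n) := Nat.pow_le_pow_right (by norm_num) h1
          _ ≤ n := Nat.pow_log_le_self 2 hn0
      have hup : (2 : ℝ) ^ (c ^ (i + 1 + 1)) ≤ y + 1 := by
        have h5 : 2 ^ (lam (i + 2)) ≤ 2 * n := by omega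
        have h6 : ((2 ^ (lam (i + 2)) : ℕ) : ℝ) ≤ 2 * (n : ℝ) := by exact_mod_cast h5
        have h7 : Real.log ((2 ^ (lam (i + 2)) : ℕ) : ℝ) ≤ Real.log (2 * (n : ℝ)) :=
          Real.log_le_log (by positivity) h6
        rw [Real.log_mul (by norm_num) hnpos.ne'] at h7
        push_cast at h7
        rw [Real.log_pow, ← hlogy] at h7
        have h8 : Real.log 2 * ((lam (i + 2) : ℕ) : ℝ) ≤ Real.log 2 * (y + 1) := by linarith
        have h9 := le_of_mul_le_mul_left h8 hlog2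
        simp only [lam] at h9
        push_cast at h9
        exact h9
      have hG2 : ((G (i + 1) : ℕ) : ℝ) ≤ 16 * Real.exp ((Real.log n) ^ (1 / (c : ℝ))) := by
        have h5 := hreal c hc (i + 1) y hy1 hup
        rw [hlogy] at h5
        simp only [G, lam]
        push_cast
        exact h5
      have h5 : (a : ℝ) ≤ n + (G i : ℕ) + (G (i + 1) : ℕ) := by exact_mod_cast h4.le
      linarith

end Pool.Agent.Helper84K9.SH
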